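import Mathlib

/-!
# Turán's problem for 3-graphs encoded by graphs: counting lemmas

All counts are counts of ordered triples. `six_card` and `es_upper` are copied from
`Pool.Agent.H122R2.N6.Count` and `Pool.Agent.Results.MP_ebbdc0_co.Components`.
-/

set_option autoImplicit false
open Finset SimpleGraph Filter Topology
open scoped Classical

namespace Pool.Agent.Y578.GE

/-- `H` is `K_m^3`-free -/
def KFree (m : ℕ) {n : ℕ} (H : Finset (Finset (Fin n))) : Prop :=
  ∀ S : Finset (Fin n), S.card = m → ∃ T ⊆ S, T.card = 3 ∧ T ∉ H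

/-- indicator of a proposition -/
noncomputable def ind (p : Prop) : ℝ := if p then 1 else 0

theorem ind_nonneg (p : Prop) : 0 ≤ ind p := by
  unfold ind; split_ifs <;> norm_num

theorem ind_le_one (p : Prop) : ind p ≤ 1 := by
  unfold ind; split_ifs <;> norm_num

theorem ind_true {p : Prop} (h : p) : ind p = 1 := by
  unfold ind; rw [if_pos h]

theorem ind_false {p : Prop} (h : ¬ p) : ind p = 0 := by
  unfold ind; rw [if_neg h]

/-- indicator of the ordered triples -/
noncomputable def tr {n : ℕ} (H : Finset (Finset (Fin n))) (x y z : Fin n) : ℝ :=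
  ind (({x, y, z} : Finset (Fin n)) ∈ H)

theorem tr_nonneg {n : ℕ} (H : Finset (Finset (Fin n))) (x y z : Fin n) : 0 ≤ tr H x y z :=
  ind_nonneg _

theorem ne_of_mem {n : ℕ} {H : Finset (Finset (Fin n))} (h3 : ∀ e ∈ H, e.card = 3)
    {x y z : Fin n} (h : ({x, y, z} : Finset (Fin n)) ∈ H) : x ≠ y ∧ x ≠ z ∧ y ≠ z := by
  have h1 := h3 _ h
  refine ⟨?_, ?_, ?_⟩
  · rintro rfl
    have : ({x, x, z} : Finset (Fin n)).card ≤ 2 := by
      rw [insert_eq_of_mem (mem_insert_self _ _)]
      exact card_le_two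
    omega
  · rintro rfl
    have : ({x, y, x} : Finset (Fin n)).card ≤ 2 := by
      rw [insert_eq_of_mem (by simp)]
      exact card_le_two
    omega
  · rintro rfl
    have : ({x, y, y} : Finset (Fin n)).card ≤ 2 := by
      rw [show ({x, y, y} : Finset (Fin n)) = {x, y} by simp]
      exact card_le_two
    omega

theorem six_card {n : ℕ} {H : Finset (Finset (Fin n))} (h3 : ∀ e ∈ H, e.card = 3) :
    6 * (H.card : ℝ) ≤ ∑ x, ∑ y, ∑ z, tr H x y z := by
  set T : Finset (Fin n × Fin n × Fin n) :=
    univ.filter fun t => ({t.1, t.2.1, t.2.2} : Finset (Fin n)) ∈ H with hT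
  have e : ∑ a, ∑ b, ∑ c, tr H a b c = (T.card : ℝ) := by
    rw [hT, Finset.card_filter, Fintype.sum_prod_type]
    push_cast
    refine sum_congr rfl fun a _ => ?_
    rw [Fintype.sum_prod_type]
    refine sum_congr rfl fun b _ => sum_congr rfl fun c _ => ?_
    by_cases h : ({a, b, c} : Finset (Fin n)) ∈ H
    · rw [tr, ind_true h, if_pos h]
    · rw [tr, ind_false h, if_neg h]
  have hfw := card_eq_sum_card_fiberwise (s := T)
    (f := fun t : Fin n × Fin n × Fin n => ({t.1, t.2.1, t.2.2} : Finset (Fin n)))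
    (t := H) (fun t ht => (mem_filter.mp (mem_coe.mp ht)).2)
  rw [e]
  have : 6 * H.card ≤ T.card := by
    rw [hfw, mul_comm, ← smul_eq_mul, ← sum_const]
    refine sum_le_sum fun s hs => ?_
    obtain ⟨x, y, z, hxy, hxz, hyz, rfl⟩ := Finset.card_eq_three.mp (h3 s hs)
    have h6 : ({(x, y, z), (x, z, y), (y, x, z), (y, z, x), (z, x, y), (z, y, x)} :
        Finset (Fin n × Fin n × Fin n)).card = 6 := by
      rw [card_insert_of_notMem, card_insert_of_notMem, card_insert_of_notMem,
        card_insert_of_notMem, card_insert_of_notMem, card_singleton] <;>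
      simp [hxy, hxz, hyz, hxy.symm, hxz.symm, hyz.symm]
    rw [← h6]
    have key : ∀ u v w : Fin n, ({u, v, w} : Finset (Fin n)) = {x, y, z} →
        (u, v, w) ∈ T.filter
          (fun t : Fin n × Fin n × Fin n => ({t.1, t.2.1, t.2.2} : Finset (Fin n)) = {x, y, z}) := by
      intro u v w h
      have hm : ({u, v, w} : Finset (Fin n)) ∈ H := by rw [h]; exact hs
      rw [mem_filter, hT, mem_filter]
      exact ⟨⟨mem_univ _, hm⟩, h⟩
    refine card_le_card fun t ht => ?_
    simp only [mem_insert, mem_singleton] at ht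
    rcases ht with rfl | rfl | rfl | rfl | rfl | rfl
    · exact key _ _ _ rfl
    · exact key _ _ _ (by ext w; simp only [mem_insert, mem_singleton]; tauto)
    · exact key _ _ _ (by ext w; simp only [mem_insert, mem_singleton]; tauto)
    · exact key _ _ _ (by ext w; simp only [mem_insert, mem_singleton]; tauto)
    · exact key _ _ _ (by ext w; simp only [mem_insert, mem_singleton]; tauto)
    · exact key _ _ _ (by ext w; simp only [mem_insert, mem_singleton]; tauto)
  exact_mod_cast this

theorem sum_adj {n : ℕ} (G : SimpleGraph (Fin n)) :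
    ∑ x, ∑ y, ind (G.Adj x y) = 2 * (G.edgeFinset.card : ℝ) := by
  have h2 := G.sum_degrees_eq_twice_card_edges
  have h3 : ∀ x, ∑ y, ind (G.Adj x y) = (G.degree x : ℝ) := by
    intro x
    unfold ind
    rw [← Finset.natCast_card_filter]
    congr 1
    rw [← G.card_neighborFinset_eq_degree x, G.neighborFinset_eq_filter]
  rw [sum_congr rfl (fun x _ => h3 x)]
  exact_mod_cast h2

theorem turan_card_congr (k n r : ℕ) (h : k = n) :
    (turanGraph k r).edgeFinset.card = (turanGraph n r).edgeFinset.card := by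
  subst h; rfl

/-- Turán's theorem in a weak form -/
theorem turan_edges {n r : ℕ} (hr : 0 < r) (G : SimpleGraph (Fin n)) (h : G.CliqueFree (r + 1)) :
    (r : ℝ) * ∑ x, ∑ y, ind (G.Adj x y) ≤ ((r : ℝ) - 1) * (n : ℝ) ^ 2 := by
  have h1 := sum_adj G
  obtain ⟨F, _, maxF⟩ := exists_isTuranMaximal (V := Fin n) hr
  have h4 : G.edgeFinset.card ≤ (turanGraph n r).edgeFinset.card := by
    have h5 := maxF.2 h
    have h6 := ((isTuranMaximal_iff_nonempty_iso_turanGraph hr).mp maxF).some.card_edgeFinset_eq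
    rw [h6, turan_card_congr _ n r (Fintype.card_fin n)] at h5
    exact h5
  have h7 := mul_card_edgeFinset_turanGraph_le (n := n) (r := r)
  have h8 : 2 * r * G.edgeFinset.card ≤ (r - 1) * n ^ 2 :=
    le_trans (Nat.mul_le_mul_left _ h4) h7
  have h9 : ((2 * r * G.edgeFinset.card : ℕ) : ℝ) ≤ (((r - 1) * n ^ 2 : ℕ) : ℝ) := by
    exact_mod_cast h8
  push_cast [Nat.cast_sub (show 1 ≤ r by omega)] at h9
  rw [h1]
  linarith

/-- the closed rules -/
theorem closed_case {m n : ℕ} (hm : 4 ≤ m) (H : Finset (Finset (Fin n)))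
    (h3 : ∀ e ∈ H, e.card = 3) (hK : KFree m H)
    (hcl : ∀ v x y z : Fin n, x ≠ y → x ≠ z → y ≠ z → ({v, x, y} : Finset (Fin n)) ∈ H →
      ({v, x, z} : Finset (Fin n)) ∈ H → ({v, y, z} : Finset (Fin n)) ∈ H →
      ({x, y, z} : Finset (Fin n)) ∈ H) :
    ((m : ℝ) - 2) * (6 * (H.card : ℝ)) ≤ ((m : ℝ) - 3) * (n : ℝ) ^ 3 := by
  have h6 := six_card h3
  have hm2 : (0 : ℝ) < (m : ℝ) - 2 := by
    have : (4 : ℝ) ≤ m := by exact_mod_cast hm
    linarith
  have key : ∀ v : Fin n, ((m : ℝ) - 2) * ∑ y, ∑ z, tr H v y z ≤ ((m : ℝ) - 3) * (n : ℝ) ^ 2 := by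
    intro v
    let L : SimpleGraph (Fin n) :=
      { Adj := fun x y => ({v, x, y} : Finset (Fin n)) ∈ H
        symm := ⟨fun x y h => by
          have : ({v, y, x} : Finset (Fin n)) = {v, x, y} := by
            ext w; simp only [mem_insert, mem_singleton]; tauto
          rw [this]; exact h⟩
        loopless := ⟨fun x h => (ne_of_mem h3 h).2.2 rfl⟩ }
    have hL : L.CliqueFree ((m - 2) + 1) := by
      intro S hS
      have hvS : v ∉ S := by
        intro hv
        have h2 : 1 < S.card := by rw [hS.card_eq]; omega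
        obtain ⟨w, hw, hwv⟩ := exists_mem_ne h2 v
        have h4 : L.Adj v w := hS.isClique (mem_coe.2 hv) (mem_coe.2 hw) hwv.symm
        exact (ne_of_mem h3 h4).1 rfl
      have hc : (insert v S).card = m := by
        rw [card_insert_of_notMem hvS, hS.card_eq]; omega
      obtain ⟨T, hT, hT3, hTH⟩ := hK _ hc
      apply hTH
      have hadj : ∀ x ∈ S, ∀ y ∈ S, x ≠ y → ({v, x, y} : Finset (Fin n)) ∈ H :=
        fun x hx y hy hxy => hS.isClique (mem_coe.2 hx) (mem_coe.2 hy) hxy
      by_cases hvT : v ∈ T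
      · obtain ⟨x, y, hxy, hT'⟩ := Finset.card_eq_two.1
          (show (T.erase v).card = 2 by rw [card_erase_of_mem hvT, hT3])
        have hTe : T = {v, x, y} := by
          rw [← insert_erase hvT, hT']
        have hx : x ∈ T.erase v := by rw [hT']; simp
        have hy : y ∈ T.erase v := by rw [hT']; simp
        have hxS : x ∈ S := by
          rcases mem_insert.1 (hT (mem_of_mem_erase hx)) with h | h
          · exact absurd h (ne_of_mem_erase hx)
          · exact h
        have hyS : y ∈ S := by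
          rcases mem_insert.1 (hT (mem_of_mem_erase hy)) with h | h
          · exact absurd h (ne_of_mem_erase hy)
          · exact h
        rw [hTe]
        exact hadj x hxS y hyS hxy
      · have hTS : T ⊆ S := fun w hw => by
          rcases mem_insert.1 (hT hw) with h | h
          · exact absurd (h ▸ hw) hvT
          · exact h
        obtain ⟨x, y, z, hxy, hxz, hyz, rfl⟩ := Finset.card_eq_three.mp hT3
        have hx : x ∈ S := hTS (by simp)
        have hy : y ∈ S := hTS (by simp)
        have hz : z ∈ S := hTS (by simp)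
        exact hcl v x y z hxy hxz hyz (hadj x hx y hy hxy) (hadj x hx z hz hxz) (hadj y hy z hz hyz)
    have h5 := turan_edges (r := m - 2) (by omega) L hL
    rw [Nat.cast_sub (by omega)] at h5
    push_cast at h5
    have h7 : ∑ y, ∑ z, ind (L.Adj y z) = ∑ y, ∑ z, tr H v y z := rfl
    rw [h7] at h5
    linarith
  have h8 : ((m : ℝ) - 2) * ∑ x, ∑ y, ∑ z, tr H x y z ≤
      ∑ _x : Fin n, ((m : ℝ) - 3) * (n : ℝ) ^ 2 := by
    rw [mul_sum]
    exact sum_le_sum fun x _ => key x
  rw [sum_const, card_univ, Fintype.card_fin, nsmul_eq_mul] at h8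
  have h9 := mul_le_mul_of_nonneg_left h6 hm2.le
  calc ((m : ℝ) - 2) * (6 * (H.card : ℝ)) ≤ _ := h9
    _ ≤ _ := h8
    _ = _ := by ring

end Pool.Agent.Y578.GE
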