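import Pool.Agent.Y578.GE.Basic

/-!
# Erdős–Stone (edge form)

Copied from `Pool.Agent.Results.MP_ebbdc0_co.Components.es_upper`.
-/

set_option autoImplicit false
open Finset SimpleGraph Filter Topology
open scoped Classical

namespace Pool.Agent.Y578.GE

theorem es_upper {W : Type} [Fintype W] (H : SimpleGraph W) (r : ℕ) (hr : 1 ≤ r)
    (hH : H.Colorable (r + 1)) : turanDensity H ≤ 1 - 1 / (r : ℝ) := by
  classical
  have hr1 : (1 : ℝ) ≤ (r : ℝ) := by exact_mod_cast hr
  have hr0 : (0 : ℝ) ≤ 1 - 1 / (r : ℝ) := by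
    have : 1 / (r : ℝ) ≤ 1 := by
      rw [div_le_one (by linarith)]
      exact hr1
    linarith
  apply le_of_forall_pos_le_add
  intro ε hε
  obtain ⟨n0, hn0⟩ := eventually_atTop.mp
    (eventually_completeEquipartiteGraph_isContained_of_minDegree hε r (Fintype.card W))
  set ρ : ℝ := 1 - 1 / (r : ℝ) + ε with hρdef
  have hρ : 0 < ρ := by linarith
  have hcont : ∀ n, n0 ≤ n → ∀ (G : SimpleGraph (Fin n)) [DecidableRel G.Adj], H.Free G →
      (G.minDegree : ℝ) < ρ * n := by
    intro n hn G _ hfree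
    by_contra hc
    push Not at hc
    have h1 := hn0 n hn (G := G) hc
    obtain ⟨C⟩ := hH
    have h2 : H ⊑ completeEquipartiteGraph (r + 1) (Fintype.card W) :=
      isContained_completeEquipartiteGraph_of_colorable C _ (fun c => by
        exact Fintype.card_subtype_le _)
    exact hfree (h2.trans h1)
  have hstep : ∀ n, n0 ≤ n + 1 →
      (extremalNumber (n + 1) H : ℝ) ≤ extremalNumber n H + ρ * ((n : ℝ) + 1) := by
    intro n hn
    have key : (extremalNumber (Fintype.card (Fin (n + 1))) H : ℝ) ≤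
        extremalNumber n H + ρ * ((n : ℝ) + 1) := by
      rw [extremalNumber_le_iff_of_nonneg H (by positivity)]
      intro G _ hfree
      obtain ⟨v, hv⟩ := G.exists_minimal_degree_vertex
      have h1 := hcont (n + 1) hn G hfree
      have h2 := card_edgeFinset_deleteIncidenceSet_le_extremalNumber hfree v
      rw [Fintype.card_fin, Nat.add_sub_cancel] at h2
      have h3 := card_edgeFinset_deleteIncidenceSet G v
      have h4 : (G.edgeFinset.card : ℝ) ≤ (G.deleteIncidenceSet v).edgeFinset.card + G.degree v := by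
        have : G.edgeFinset.card ≤ (G.deleteIncidenceSet v).edgeFinset.card + G.degree v := by
          omega
        exact_mod_cast this
      have h5 : ((G.deleteIncidenceSet v).edgeFinset.card : ℝ) ≤ extremalNumber n H := by
        exact_mod_cast h2
      rw [hv] at h1
      push_cast at h1
      linarith
    simpa using key
  set C0 : ℝ := ((extremalNumber n0 H : ℕ) : ℝ) with hC0
  have hC0n : 0 ≤ C0 := by positivity
  have hind : ∀ k : ℕ, (extremalNumber (n0 + k) H : ℝ) ≤
      C0 + ρ * (((n0 + k : ℕ) : ℝ) * (((n0 + k : ℕ) : ℝ) + 1) / 2) := by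
    intro k
    induction k with
    | zero =>
      simp only [Nat.add_zero]
      have : 0 ≤ ρ * ((n0 : ℝ) * ((n0 : ℝ) + 1) / 2) := by positivity
      linarith
    | succ k ih =>
      have h := hstep (n0 + k) (by omega)
      have e : n0 + (k + 1) = n0 + k + 1 := by omega
      rw [e]
      push_cast at h ih ⊢
      nlinarith [h, ih]
  by_contra hd
  push Not at hd
  set d : ℝ := turanDensity H with hddef
  have hdr : 0 < d - ρ := by linarith
  obtain ⟨k, hk⟩ := exists_nat_gt (2 * (ρ + C0) / (d - ρ) + 1)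
  set n : ℕ := n0 + (k + 2) with hn
  have hn2 : 2 ≤ n := by omega
  have hlow : d ≤ (extremalNumber n H : ℝ) / (n.choose 2 : ℝ) :=
    (isGLB_turanDensity H).1 ⟨n, hn2, rfl⟩
  have hch : (0 : ℝ) < (n.choose 2 : ℝ) := by
    exact_mod_cast Nat.choose_pos hn2
  rw [le_div_iff₀ hch, Nat.cast_choose_two] at hlow
  have hup := hind (k + 2)
  rw [← hn] at hup
  have hnk : (k : ℝ) ≤ (n : ℝ) - 2 := by
    rw [hn]
    push_cast
    have : (0 : ℝ) ≤ (n0 : ℝ) := Nat.cast_nonneg _
    linarith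
  have hn1 : (1 : ℝ) ≤ (n : ℝ) := by
    have : (0 : ℝ) ≤ (k : ℝ) := Nat.cast_nonneg _
    linarith
  have hbig : 2 * (ρ + C0) < (d - ρ) * ((n : ℝ) - 1) := by
    have h1 : 2 * (ρ + C0) / (d - ρ) < (n : ℝ) - 1 := by linarith
    rw [div_lt_iff₀ hdr] at h1
    linarith
  have hfin : (n : ℝ) * (2 * (ρ + C0)) < (n : ℝ) * ((d - ρ) * ((n : ℝ) - 1)) :=
    mul_lt_mul_of_pos_left hbig (by linarith)
  have hC0' : C0 ≤ (n : ℝ) * C0 := le_mul_of_one_le_left hC0n hn1
  nlinarith [hfin, hC0', hlow, hup]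

/-- a dense graph contains the complete `(s+1)`-partite graph with two vertices in each class -/
theorem es_two (s : ℕ) (hs : 1 ≤ s) {ε : ℝ} (hε : 0 < ε) :
    ∃ N : ℕ, ∀ n : ℕ, N ≤ n → ∀ G : SimpleGraph (Fin n),
      (1 - 1 / (s : ℝ) + ε) * (n : ℝ) ^ 2 < ∑ x, ∑ y, ind (G.Adj x y) →
      ∃ f : Fin (s + 1) × Fin 2 → Fin n, Function.Injective f ∧
        ∀ p q, p.1 ≠ q.1 → G.Adj (f p) (f q) := by
  have h1 := es_upper (completeEquipartiteGraph (s + 1) 2) s hs
    (completeEquipartiteGraph_colorable (r := s + 1) (t := 2))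
  obtain ⟨N, hN⟩ := eventually_atTop.mp
    (eventually_isContained_of_card_edgeFinset (completeEquipartiteGraph (s + 1) 2) hε)
  refine ⟨N, fun n hn G hG => ?_⟩
  have h2 : ((turanDensity (completeEquipartiteGraph (s + 1) 2) + ε) * (n.choose 2 : ℝ)) ≤
      (G.edgeFinset.card : ℝ) := by
    rw [sum_adj G] at hG
    have h3 : (turanDensity (completeEquipartiteGraph (s + 1) 2) + ε) ≤ 1 - 1 / (s : ℝ) + ε := by
      linarith
    have h4 : (n.choose 2 : ℝ) ≤ (n : ℝ) ^ 2 / 2 := by
      rw [Nat.cast_choose_two]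
      have : (0 : ℝ) ≤ n := Nat.cast_nonneg n
      nlinarith
    have h5 : (0 : ℝ) ≤ (n.choose 2 : ℝ) := Nat.cast_nonneg _
    have hs1 : (1 : ℝ) ≤ s := by exact_mod_cast hs
    have h6 : (0 : ℝ) ≤ 1 - 1 / (s : ℝ) + ε := by
      have : 1 / (s : ℝ) ≤ 1 := by
        rw [div_le_one (by linarith)]
        exact hs1
      linarith
    calc (turanDensity (completeEquipartiteGraph (s + 1) 2) + ε) * (n.choose 2 : ℝ)
        ≤ (1 - 1 / (s : ℝ) + ε) * (n.choose 2 : ℝ) := mul_le_mul_of_nonneg_right h3 h5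
      _ ≤ (1 - 1 / (s : ℝ) + ε) * ((n : ℝ) ^ 2 / 2) := mul_le_mul_of_nonneg_left h4 h6
      _ ≤ (G.edgeFinset.card : ℝ) := by linarith
  obtain ⟨f⟩ := hN n hn h2
  refine ⟨f, f.injective, fun p q hpq => ?_⟩
  apply f.toHom.map_adj
  rw [completeEquipartiteGraph_adj]
  exact hpq

end Pool.Agent.Y578.GE
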