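import Pool.Agent.Y578.GE.Oct
import Pool.Agent.Y578.GE.ES

/-!
# The cases of the theorem on 3-graphs encoded by graphs
-/

set_option autoImplicit false
open Finset SimpleGraph Filter Topology
open scoped Classical

namespace Pool.Agent.Y578.GE

variable {n : ℕ}

/-- `x` is adjacent to `y` and not to `z` -/
noncomputable def mix (G : SimpleGraph (Fin n)) (x y z : Fin n) : ℝ :=
  ind (G.Adj x y) * ind (¬ G.Adj x z)

theorem mix_nonneg (G : SimpleGraph (Fin n)) (x y z : Fin n) : 0 ≤ mix G x y z :=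
  mul_nonneg (ind_nonneg _) (ind_nonneg _)

noncomputable def six (G : SimpleGraph (Fin n)) (x y z : Fin n) : ℝ :=
  mix G x y z + mix G x z y + mix G y x z + mix G y z x + mix G z x y + mix G z y x

theorem six_nonneg (G : SimpleGraph (Fin n)) (x y z : Fin n) : 0 ≤ six G x y z := by
  unfold six
  have := mix_nonneg G x y z
  have := mix_nonneg G x z y
  have := mix_nonneg G y x z
  have := mix_nonneg G y z x
  have := mix_nonneg G z x y
  have := mix_nonneg G z y x
  linarith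

theorem two_le_six (G : SimpleGraph (Fin n)) (x y z : Fin n)
    (h1 : ¬ (G.Adj x y ∧ G.Adj x z ∧ G.Adj y z))
    (h2 : ¬ (¬ G.Adj x y ∧ ¬ G.Adj x z ∧ ¬ G.Adj y z)) : 2 ≤ six G x y z := by
  unfold six mix
  rw [G.adj_comm y x, G.adj_comm z x, G.adj_comm z y]
  by_cases a : G.Adj x y
  · by_cases b : G.Adj x z
    · have c : ¬ G.Adj y z := fun c => h1 ⟨a, b, c⟩
      simp only [ind, a, b, c, if_true, if_false, not_true_eq_false, not_false_eq_true]
      norm_num
    · by_cases c : G.Adj y z <;>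
      simp only [ind, a, b, c, if_true, if_false, not_true_eq_false, not_false_eq_true] <;>
      norm_num
  · by_cases b : G.Adj x z
    · by_cases c : G.Adj y z <;>
      simp only [ind, a, b, c, if_true, if_false, not_true_eq_false, not_false_eq_true] <;>
      norm_num
    · have c : G.Adj y z := by
        by_contra c
        exact h2 ⟨a, b, c⟩
      simp only [ind, a, b, c, if_true, if_false, not_true_eq_false, not_false_eq_true]
      norm_num

theorem perm1 (f : Fin n → Fin n → Fin n → ℝ) :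
    ∑ x, ∑ y, ∑ z, f x z y = ∑ x, ∑ y, ∑ z, f x y z :=
  sum_congr rfl fun _ _ => sum_comm

theorem perm2 (f : Fin n → Fin n → Fin n → ℝ) :
    ∑ x, ∑ y, ∑ z, f y x z = ∑ x, ∑ y, ∑ z, f x y z := sum_comm

theorem perm3 (f : Fin n → Fin n → Fin n → ℝ) :
    ∑ x, ∑ y, ∑ z, f y z x = ∑ x, ∑ y, ∑ z, f x y z := by
  rw [perm2 (fun a b c => f a c b), perm1]

theorem perm4 (f : Fin n → Fin n → Fin n → ℝ) :
    ∑ x, ∑ y, ∑ z, f z x y = ∑ x, ∑ y, ∑ z, f x y z := by
  rw [perm1 (fun a b c => f b a c), perm2]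

theorem perm5 (f : Fin n → Fin n → Fin n → ℝ) :
    ∑ x, ∑ y, ∑ z, f z y x = ∑ x, ∑ y, ∑ z, f x y z := by
  rw [perm1 (fun a b c => f b c a), perm3]

theorem sum_mix (G : SimpleGraph (Fin n)) :
    ∑ x, ∑ y, ∑ z, mix G x y z ≤ (n : ℝ) ^ 3 / 4 := by
  have key : ∀ x, ∑ y, ∑ z, mix G x y z ≤ (n : ℝ) ^ 2 / 4 := by
    intro x
    unfold mix
    rw [← sum_mul_sum]
    set a := ∑ i, ind (G.Adj x i)
    set b := ∑ i, ind (¬ G.Adj x i)
    have hab : a + b = n := by
      rw [← sum_add_distrib]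
      have : ∀ i : Fin n, ind (G.Adj x i) + ind (¬ G.Adj x i) = 1 := by
        intro i
        by_cases h : G.Adj x i
        · rw [ind_true h, ind_false (not_not.2 h), add_zero]
        · rw [ind_false h, ind_true h, zero_add]
      rw [sum_congr rfl (fun i _ => this i)]
      simp
    rw [← hab]
    nlinarith [sq_nonneg (a - b)]
  calc ∑ x, ∑ y, ∑ z, mix G x y z ≤ ∑ _x : Fin n, (n : ℝ) ^ 2 / 4 := sum_le_sum fun x _ => key x
    _ = (n : ℝ) ^ 3 / 4 := by
      rw [sum_const, card_univ, Fintype.card_fin, nsmul_eq_mul]; ring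

theorem sum_six (G : SimpleGraph (Fin n)) :
    ∑ x, ∑ y, ∑ z, six G x y z / 2 ≤ 3 / 4 * (n : ℝ) ^ 3 := by
  have h := sum_mix G
  have e : ∑ x, ∑ y, ∑ z, six G x y z / 2 = 3 * ∑ x, ∑ y, ∑ z, mix G x y z := by
    have e1 : ∑ x, ∑ y, ∑ z, six G x y z = 6 * ∑ x, ∑ y, ∑ z, mix G x y z := by
      unfold six
      simp only [sum_add_distrib]
      rw [perm1 (mix G), perm2 (mix G), perm3 (mix G), perm4 (mix G), perm5 (mix G)]
      ring
    simp only [← sum_div]
    rw [e1]
    ring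
  rw [e]
  linarith

/-- neither triangles nor empty triples -/
theorem nonmono_case (G : SimpleGraph (Fin n)) (H : Finset (Finset (Fin n)))
    (h3 : ∀ e ∈ H, e.card = 3)
    (hH : ∀ x y z : Fin n, x ≠ y → x ≠ z → y ≠ z → ({x, y, z} : Finset (Fin n)) ∈ H →
      ¬ (G.Adj x y ∧ G.Adj x z ∧ G.Adj y z) ∧ ¬ (¬ G.Adj x y ∧ ¬ G.Adj x z ∧ ¬ G.Adj y z)) :
    6 * (H.card : ℝ) ≤ 3 / 4 * (n : ℝ) ^ 3 := by
  refine (six_card h3).trans (le_trans ?_ (sum_six G))
  refine sum_le_sum fun x _ => sum_le_sum fun y _ => sum_le_sum fun z _ => ?_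
  by_cases h : ({x, y, z} : Finset (Fin n)) ∈ H
  · obtain ⟨a, b, c⟩ := ne_of_mem h3 h
    obtain ⟨h1, h2⟩ := hH x y z a b c h
    have := two_le_six G x y z h1 h2
    have := ind_le_one (({x, y, z} : Finset (Fin n)) ∈ H)
    unfold tr
    linarith
  · have := six_nonneg G x y z
    rw [tr, ind_false h]
    linarith

theorem three_two {a b c x x' : Fin n} (ha : a = x ∨ a = x') (hb : b = x ∨ b = x')
    (hc : c = x ∨ c = x') (hab : a ≠ b) (hac : a ≠ c) (hbc : b ≠ c) : False := by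
  rcases ha with ha | ha <;> rcases hb with hb | hb
  · exact hab (ha.trans hb.symm)
  · rcases hc with hc | hc
    · exact hac (ha.trans hc.symm)
    · exact hbc (hb.trans hc.symm)
  · rcases hc with hc | hc
    · exact hbc (hb.trans hc.symm)
    · exact hac (ha.trans hc.symm)
  · exact hab (ha.trans hb.symm)

theorem six_distinct {x x' y y' z z' : Fin n} (hx : x ≠ x') (hy : y ≠ y') (hz : z ≠ z')
    (h1 : x ≠ y) (h2 : x ≠ y') (h3 : x' ≠ y) (h4 : x' ≠ y') (h5 : x ≠ z) (h6 : x ≠ z')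
    (h7 : x' ≠ z) (h8 : x' ≠ z') (h9 : y ≠ z) (h10 : y ≠ z') (h11 : y' ≠ z) (h12 : y' ≠ z') :
    ({x, x', y, y', z, z'} : Finset (Fin n)).card = 6 := by
  rw [card_insert_of_notMem, card_insert_of_notMem, card_insert_of_notMem,
    card_insert_of_notMem, card_insert_of_notMem, card_singleton]
  · rw [mem_singleton]; exact hz
  · simp only [mem_insert, mem_singleton, not_or]; exact ⟨h11, h12⟩
  · simp only [mem_insert, mem_singleton, not_or]; exact ⟨hy, h9, h10⟩
  · simp only [mem_insert, mem_singleton, not_or]; exact ⟨h3, h4, h7, h8⟩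
  · simp only [mem_insert, mem_singleton, not_or]; exact ⟨hx, h1, h2, h5, h6⟩

/-- all triples but the triangles of `G`, at most six points -/
theorem exc_case {m : ℕ} (hm : m ≤ 6) {ε : ℝ} (hε : 0 < ε) (hn : 3 / ε ^ 8 < (n : ℝ))
    (G : SimpleGraph (Fin n)) (H : Finset (Finset (Fin n)))
    (h3 : ∀ e ∈ H, e.card = 3) (hK : KFree m H)
    (hH : ∀ x y z : Fin n, x ≠ y → x ≠ z → y ≠ z → (({x, y, z} : Finset (Fin n)) ∈ H ↔
      ¬ (G.Adj x y ∧ G.Adj x z ∧ G.Adj y z))) :
    6 * (H.card : ℝ) ≤ (3 / 4 + ε) * (n : ℝ) ^ 3 := by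
  have hoct := octa_bound hε hn
    (fun x y z => x ≠ y ∧ x ≠ z ∧ y ≠ z ∧ ¬ G.Adj x y ∧ ¬ G.Adj x z ∧ ¬ G.Adj y z) (by
      intro x x' y y' z z' hx hy hz p1 p2 p3 p4 p5 p6 p7 p8
      have hc : ({x, x', y, y', z, z'} : Finset (Fin n)).card = 6 :=
        six_distinct hx hy hz p1.1 p3.1 p2.1 p4.1 p1.2.1 p5.2.1 p2.2.1 p6.2.1 p1.2.2.1 p5.2.2.1
          p3.2.2.1 p7.2.2.1
      obtain ⟨S, hS, hSm⟩ := exists_subset_card_eq (show m ≤ _ by rw [hc]; exact hm)
      obtain ⟨T, hT, hT3, hTH⟩ := hK S hSm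
      apply hTH
      obtain ⟨a, b, c, hab, hac, hbc, rfl⟩ := Finset.card_eq_three.mp hT3
      rw [hH a b c hab hac hbc]
      have ha := hS (hT (show a ∈ ({a, b, c} : Finset (Fin n)) by simp))
      have hb := hS (hT (show b ∈ ({a, b, c} : Finset (Fin n)) by simp))
      have hc' := hS (hT (show c ∈ ({a, b, c} : Finset (Fin n)) by simp))
      simp only [mem_insert, mem_singleton] at ha hb hc'
      -- the class of each of the six points
      have cls : ∀ w, (w = x ∨ w = x' ∨ w = y ∨ w = y' ∨ w = z ∨ w = z') →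
          ((w = x ∨ w = x') ∨ (w = y ∨ w = y') ∨ (w = z ∨ w = z')) := by
        rintro w (h | h | h | h | h | h)
        · exact Or.inl (Or.inl h)
        · exact Or.inl (Or.inr h)
        · exact Or.inr (Or.inl (Or.inl h))
        · exact Or.inr (Or.inl (Or.inr h))
        · exact Or.inr (Or.inr (Or.inl h))
        · exact Or.inr (Or.inr (Or.inr h))
      have hxy : ∀ u v, (u = x ∨ u = x') → (v = y ∨ v = y') → ¬ G.Adj u v := by
        rintro u v (rfl | rfl) (rfl | rfl)
        · exact p1.2.2.2.1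
        · exact p3.2.2.2.1
        · exact p2.2.2.2.1
        · exact p4.2.2.2.1
      have hxz : ∀ u v, (u = x ∨ u = x') → (v = z ∨ v = z') → ¬ G.Adj u v := by
        rintro u v (rfl | rfl) (rfl | rfl)
        · exact p1.2.2.2.2.1
        · exact p5.2.2.2.2.1
        · exact p2.2.2.2.2.1
        · exact p6.2.2.2.2.1
      have hyz : ∀ u v, (u = y ∨ u = y') → (v = z ∨ v = z') → ¬ G.Adj u v := by
        rintro u v (rfl | rfl) (rfl | rfl)
        · exact p1.2.2.2.2.2
        · exact p5.2.2.2.2.2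
        · exact p3.2.2.2.2.2
        · exact p7.2.2.2.2.2
      rintro ⟨q1, q2, q3⟩
      rcases cls a ha with ha | ha | ha <;> rcases cls b hb with hb | hb | hb
      · rcases cls c hc' with hc' | hc' | hc'
        · exact three_two ha hb hc' hab hac hbc
        · exact hxy _ _ ha hc' q2
        · exact hxz _ _ ha hc' q2
      · exact hxy _ _ ha hb q1
      · exact hxz _ _ ha hb q1
      · exact hxy _ _ hb ha q1.symm
      · rcases cls c hc' with hc' | hc' | hc'
        · exact hxy _ _ hc' ha q2.symm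
        · exact three_two ha hb hc' hab hac hbc
        · exact hyz _ _ ha hc' q2
      · exact hyz _ _ ha hb q1
      · exact hxz _ _ hb ha q1.symm
      · exact hyz _ _ hb ha q1.symm
      · rcases cls c hc' with hc' | hc' | hc'
        · exact hxz _ _ hc' ha q2.symm
        · exact hyz _ _ hc' ha q2.symm
        · exact three_two ha hb hc' hab hac hbc)
  have hsix := sum_six G
  have h6 := six_card h3
  have hle : ∑ x, ∑ y, ∑ z, tr H x y z ≤ ∑ x, ∑ y, ∑ z, (six G x y z / 2 +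
      ind (x ≠ y ∧ x ≠ z ∧ y ≠ z ∧ ¬ G.Adj x y ∧ ¬ G.Adj x z ∧ ¬ G.Adj y z)) := by
    refine sum_le_sum fun x _ => sum_le_sum fun y _ => sum_le_sum fun z _ => ?_
    have s0 := six_nonneg G x y z
    have i0 := ind_nonneg (x ≠ y ∧ x ≠ z ∧ y ≠ z ∧ ¬ G.Adj x y ∧ ¬ G.Adj x z ∧ ¬ G.Adj y z)
    by_cases h : ({x, y, z} : Finset (Fin n)) ∈ H
    · rw [tr, ind_true h]
      obtain ⟨a, b, c⟩ := ne_of_mem h3 h
      by_cases h2 : ¬ G.Adj x y ∧ ¬ G.Adj x z ∧ ¬ G.Adj y z
      · rw [ind_true ⟨a, b, c, h2⟩]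
        linarith
      · have := two_le_six G x y z ((hH x y z a b c).1 h) h2
        linarith
    · rw [tr, ind_false h]
      linarith
  simp only [sum_add_distrib] at hle
  calc 6 * (H.card : ℝ) ≤ _ := h6
    _ ≤ _ := hle
    _ ≤ 3 / 4 * (n : ℝ) ^ 3 + ε * (n : ℝ) ^ 3 := add_le_add hsix hoct
    _ = _ := by ring

end Pool.Agent.Y578.GE
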