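import Pool.Agent.Y578.GE.Basic

/-!
# The complete multipartite example
-/

set_option autoImplicit false
open Finset SimpleGraph Filter Topology
open scoped Classical

namespace Pool.Agent.Y578.GE

/-- the class of a point -/
def part (s : ℕ) {n : ℕ} (x : Fin n) : ℕ := x.val % s

/-- complete `s`-partite graph -/
def multi (s n : ℕ) : SimpleGraph (Fin n) where
  Adj x y := part s x ≠ part s y
  symm := ⟨fun _ _ h => h.symm⟩
  loopless := ⟨fun _ h => h rfl⟩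

/-- triples not inside a class -/
noncomputable def multiH (s n : ℕ) : Finset (Finset (Fin n)) :=
  ((univ : Finset (Fin n)).powersetCard 3).filter
    (fun T => ∃ x ∈ T, ∃ y ∈ T, part s x ≠ part s y)

theorem class_card {s n : ℕ} (i : ℕ) :
    ((univ : Finset (Fin n)).filter (fun x => part s x = i)).card ≤ n / s + 1 := by
  rw [← card_range (n / s + 1)]
  refine card_le_card_of_injOn (fun x => x.val / s) ?_ ?_
  · intro x _
    rw [mem_coe, mem_range]
    have : x.val / s ≤ n / s := Nat.div_le_div_right x.isLt.le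
    show x.val / s < n / s + 1
    omega
  · intro x hx y hy hxy
    have h1 := (mem_filter.1 (mem_coe.1 hx)).2
    have h2 := (mem_filter.1 (mem_coe.1 hy)).2
    unfold part at h1 h2
    have h3 : x.val / s = y.val / s := hxy
    have e1 := Nat.div_add_mod x.val s
    have e2 := Nat.div_add_mod y.val s
    rw [h3, h1] at e1
    rw [h2] at e2
    exact Fin.ext (e1.symm.trans e2)

theorem multiH_card {s n : ℕ} (hs : 1 ≤ s) :
    n.choose 3 ≤ (multiH s n).card + s * (n / s + 1).choose 3 := by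
  have h1 := card_filter_add_card_filter_not (s := (univ : Finset (Fin n)).powersetCard 3)
    (fun T => ∃ x ∈ T, ∃ y ∈ T, part s x ≠ part s y)
  rw [card_powersetCard, card_univ, Fintype.card_fin] at h1
  have h2 : (((univ : Finset (Fin n)).powersetCard 3).filter
      (fun T => ¬ ∃ x ∈ T, ∃ y ∈ T, part s x ≠ part s y)).card ≤ s * (n / s + 1).choose 3 := by
    have hsub : ((univ : Finset (Fin n)).powersetCard 3).filter
        (fun T => ¬ ∃ x ∈ T, ∃ y ∈ T, part s x ≠ part s y) ⊆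
        (range s).biUnion (fun i =>
          ((univ : Finset (Fin n)).filter (fun x => part s x = i)).powersetCard 3) := by
      intro T hT
      obtain ⟨hT1, hT2⟩ := mem_filter.1 hT
      have hT3 := (mem_powersetCard.1 hT1).2
      obtain ⟨x, hx⟩ : T.Nonempty := by rw [← card_pos]; omega
      rw [mem_biUnion]
      refine ⟨part s x, mem_range.2 (Nat.mod_lt _ (by omega)), mem_powersetCard.2 ⟨?_, hT3⟩⟩
      intro y hy
      rw [mem_filter]
      refine ⟨mem_univ _, ?_⟩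
      by_contra hne
      exact hT2 ⟨y, hy, x, hx, hne⟩
    refine (card_le_card hsub).trans (card_biUnion_le.trans ?_)
    calc ∑ i ∈ range s, (((univ : Finset (Fin n)).filter
          (fun x => part s x = i)).powersetCard 3).card
        ≤ ∑ _i ∈ range s, (n / s + 1).choose 3 := by
          refine sum_le_sum fun i _ => ?_
          rw [card_powersetCard]
          exact Nat.choose_le_choose 3 (class_card i)
      _ = s * (n / s + 1).choose 3 := by rw [sum_const, card_range, smul_eq_mul]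
  have h3 : (multiH s n).card = (((univ : Finset (Fin n)).powersetCard 3).filter
      (fun T => ∃ x ∈ T, ∃ y ∈ T, part s x ≠ part s y)).card := rfl
  omega

theorem multiH_three {s n : ℕ} : ∀ e ∈ multiH s n, e.card = 3 := fun _ he =>
  (mem_powersetCard.1 (mem_filter.1 he).1).2

theorem multiH_free {s n m : ℕ} (hs : 1 ≤ s) (hm : 2 * s < m) : KFree m (multiH s n) := by
  intro S hS
  obtain ⟨i, hi, h3⟩ := exists_lt_card_fiber_of_mul_lt_card_of_maps_to (s := S) (t := range s)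
    (f := fun x => part s x) (n := 2)
    (fun x _ => mem_range.2 (Nat.mod_lt _ (by omega))) (by rw [card_range, hS]; omega)
  obtain ⟨T, hT, hT3⟩ := exists_subset_card_eq (show 3 ≤ _ from h3)
  refine ⟨T, hT.trans (filter_subset _ _), hT3, fun hmem => ?_⟩
  obtain ⟨-, x, hx, y, hy, hne⟩ := mem_filter.1 hmem
  exact hne (((mem_filter.1 (hT hx)).2).trans (mem_filter.1 (hT hy)).2.symm)

theorem multiH_large {s : ℕ} (hs : 1 ≤ s) {ε : ℝ} (hε : 0 < ε) :
    ∃ N : ℕ, ∀ n : ℕ, N ≤ n →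
      (1 - 1 / (s : ℝ) ^ 2 - ε) * (n.choose 3 : ℝ) ≤ ((multiH s n).card : ℝ) := by
  have hs1 : (1 : ℝ) ≤ s := by exact_mod_cast hs
  have hC : ∀ k : ℕ, (k.choose 3 : ℝ) ≤ (k : ℝ) ^ 3 / 6 := by
    intro k
    have := Nat.choose_le_pow_div (α := ℝ) 3 k
    simpa [Nat.factorial] using this
  have hch : ∀ n : ℕ, 2 ≤ n → ((n.choose 3 : ℕ) : ℝ) = (n : ℝ) * (n - 1) * (n - 2) / 6 := by
    intro n hn
    have h1 : n.choose 3 * 6 = n * (n - 1) * (n - 2) := by
      have := Nat.descFactorial_eq_factorial_mul_choose n 3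
      have h2 : n.descFactorial 3 = (n - 2) * ((n - 1) * n) := by
        simp [Nat.descFactorial]
      rw [h2] at this
      have h3 : Nat.factorial 3 = 6 := rfl
      rw [h3] at this
      linarith
    have h4 : ((n.choose 3 * 6 : ℕ) : ℝ) = ((n * (n - 1) * (n - 2) : ℕ) : ℝ) := by rw [h1]
    push_cast [Nat.cast_sub (show 1 ≤ n by omega), Nat.cast_sub (show 2 ≤ n by omega)] at h4
    linarith
  obtain ⟨N, hN⟩ := exists_nat_gt ((7 * (s : ℝ) + 6 * (s : ℝ) + (s : ℝ) ^ 3) * 2 / ε + 4)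
  refine ⟨max N 2, fun n hn => ?_⟩
  have hn2 : 2 ≤ n := le_trans (le_max_right _ _) hn
  have hnN : (7 * (s : ℝ) + 6 * (s : ℝ) + (s : ℝ) ^ 3) * 2 / ε + 4 < (n : ℝ) :=
    lt_of_lt_of_le hN (by exact_mod_cast le_trans (le_max_left _ _) hn)
  have h1 : (n.choose 3 : ℝ) ≤ ((multiH s n).card : ℝ) + s * ((n / s + 1 : ℕ).choose 3 : ℝ) := by
    exact_mod_cast multiH_card (n := n) hs
  have h2 : ((n / s + 1 : ℕ) : ℝ) ≤ (n : ℝ) / s + 1 := by
    push_cast
    have := Nat.cast_div_le (α := ℝ) (m := n) (n := s)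
    linarith
  have h3 : ((n / s + 1 : ℕ).choose 3 : ℝ) ≤ ((n : ℝ) / s + 1) ^ 3 / 6 := by
    refine (hC _).trans ?_
    have : ((n / s + 1 : ℕ) : ℝ) ^ 3 ≤ ((n : ℝ) / s + 1) ^ 3 :=
      pow_le_pow_left₀ (Nat.cast_nonneg _) h2 3
    linarith
  have hn0 : (1 : ℝ) ≤ n := by exact_mod_cast (show 1 ≤ n by omega)
  have h4 : (s : ℝ) * (((n : ℝ) / s + 1) ^ 3 / 6) ≤
      (1 / (s : ℝ) ^ 2) * ((n : ℝ) ^ 3 / 6) + (7 * s) * (n : ℝ) ^ 2 / 6 := by
    have e : (s : ℝ) * (((n : ℝ) / s + 1) ^ 3 / 6) =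
        (1 / (s : ℝ) ^ 2) * ((n : ℝ) ^ 3 / 6) + (3 * (n : ℝ) ^ 2 / s + 3 * n + s) / 6 := by
      field_simp
      ring
    rw [e]
    have e1 : 3 * (n : ℝ) ^ 2 / s ≤ 3 * s * (n : ℝ) ^ 2 := by
      rw [div_le_iff₀ (by linarith)]
      have : (1 : ℝ) ≤ s * s := by nlinarith
      have hh : 0 ≤ 3 * (n : ℝ) ^ 2 := by positivity
      nlinarith
    have e2 : 3 * (n : ℝ) ≤ 3 * s * (n : ℝ) ^ 2 := by
      have : (n : ℝ) ≤ (n : ℝ) ^ 2 := by nlinarith
      nlinarith [mul_le_mul hs1 this (by linarith) (by linarith)]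
    have e3 : (s : ℝ) ≤ s * (n : ℝ) ^ 2 := by
      have : (1 : ℝ) ≤ (n : ℝ) ^ 2 := by nlinarith
      nlinarith
    nlinarith
  have h5 : (s : ℝ) * ((n / s + 1 : ℕ).choose 3 : ℝ) ≤
      (1 / (s : ℝ) ^ 2) * ((n : ℝ) ^ 3 / 6) + (7 * s) * (n : ℝ) ^ 2 / 6 :=
    (mul_le_mul_of_nonneg_left h3 (by linarith)).trans h4
  have hq : 1 / (s : ℝ) ^ 2 ≤ 1 := by
    rw [div_le_one (by positivity)]
    nlinarith
  have hq0 : 0 ≤ 1 / (s : ℝ) ^ 2 := by positivity
  have h6 : (1 / (s : ℝ) ^ 2) * ((n : ℝ) ^ 3 / 6) ≤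
      (1 / (s : ℝ) ^ 2) * (n.choose 3 : ℝ) + 3 * (n : ℝ) ^ 2 / 6 := by
    rw [hch n hn2]
    have : (1 / (s : ℝ) ^ 2) * ((n : ℝ) ^ 3 / 6) - (1 / (s : ℝ) ^ 2) * ((n : ℝ) * (n - 1) * (n - 2) / 6)
        = (1 / (s : ℝ) ^ 2) * ((3 * (n : ℝ) ^ 2 - 2 * n) / 6) := by ring
    have h7 : (1 / (s : ℝ) ^ 2) * ((3 * (n : ℝ) ^ 2 - 2 * n) / 6) ≤ 1 * ((3 * (n : ℝ) ^ 2 - 2 * n) / 6) :=
      mul_le_mul_of_nonneg_right hq (by nlinarith)
    nlinarith
  have h8 : (7 * s) * (n : ℝ) ^ 2 / 6 + 3 * (n : ℝ) ^ 2 / 6 ≤ ε * (n.choose 3 : ℝ) := by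
    rw [hch n hn2]
    have hA : (7 * (s : ℝ) + 6 * (s : ℝ) + (s : ℝ) ^ 3) * 2 < ε * ((n : ℝ) - 4) := by
      have : (7 * (s : ℝ) + 6 * (s : ℝ) + (s : ℝ) ^ 3) * 2 / ε < (n : ℝ) - 4 := by linarith
      rw [div_lt_iff₀ hε] at this
      linarith
    have hs3 : 0 ≤ (s : ℝ) ^ 3 := by positivity
    have hB : 7 * (s : ℝ) + 3 ≤ ε * ((n : ℝ) - 3) := by nlinarith
    have hC' : (n : ℝ) ^ 2 * ((n : ℝ) - 3) ≤ (n : ℝ) * (n - 1) * (n - 2) := by nlinarith
    have hD : (n : ℝ) ^ 2 * (7 * (s : ℝ) + 3) ≤ (n : ℝ) ^ 2 * (ε * ((n : ℝ) - 3)) :=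
      mul_le_mul_of_nonneg_left hB (by positivity)
    have hE := mul_le_mul_of_nonneg_left hC' hε.le
    nlinarith
  nlinarith

end Pool.Agent.Y578.GE
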