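import Pool.Agent.Y578.GE.Cases
import Pool.Agent.H265R2.CritP4

/-!
# Turán's problem for 3-graphs encoded by graphs: the main theorem
-/

set_option autoImplicit false
open Finset SimpleGraph Filter Topology
open scoped Classical

namespace Pool.Agent.Y578.GE

variable {n : ℕ}

/-- at most one of the three pairs is an edge -/
def AMO (G : SimpleGraph (Fin n)) (x y z : Fin n) : Prop :=
  ¬ (G.Adj x y ∧ G.Adj x z) ∧ ¬ (G.Adj x y ∧ G.Adj y z) ∧ ¬ (G.Adj x z ∧ G.Adj y z)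

theorem es_case {m s : ℕ} (hs : 1 ≤ s) (hms : m ≤ 2 * (s + 1)) {ε : ℝ} (hε : 0 < ε) :
    ∃ N : ℕ, ∀ n : ℕ, N ≤ n → ∀ (G : SimpleGraph (Fin n)) (H : Finset (Finset (Fin n))),
      (∀ e ∈ H, e.card = 3) → KFree m H →
      (∀ x y z : Fin n, x ≠ y → x ≠ z → y ≠ z → (({x, y, z} : Finset (Fin n)) ∈ H ↔ AMO G x y z)) →
      6 * (H.card : ℝ) ≤ (1 - 1 / (s : ℝ) ^ 2 + ε) * (n : ℝ) ^ 3 := by
  set δ : ℝ := ε / 16 with hδ
  have hδ0 : 0 < δ := by positivity
  obtain ⟨N0, hN0⟩ := es_two s hs hδ0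
  obtain ⟨N1, hN1⟩ := exists_nat_gt (1 / δ)
  refine ⟨max N0 (max N1 1), fun n hn G H h3 hK hH => ?_⟩
  have hn0 : N0 ≤ n := le_trans (le_max_left _ _) hn
  have hn1 : N1 ≤ n := le_trans (le_trans (le_max_left _ _) (le_max_right _ _)) hn
  have hn2 : 1 ≤ n := le_trans (le_trans (le_max_right _ _) (le_max_right _ _)) hn
  have hnr : (1 : ℝ) ≤ n := by exact_mod_cast hn2
  have hnd : 1 < δ * n := by
    have : 1 / δ < (n : ℝ) := lt_of_lt_of_le hN1 (by exact_mod_cast hn1)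
    rw [div_lt_iff₀ hδ0] at this
    linarith
  -- the complement is sparse enough
  have hc : ∑ x, ∑ y, ind (Gᶜ.Adj x y) ≤ (1 - 1 / (s : ℝ) + δ) * (n : ℝ) ^ 2 := by
    by_contra hcon
    push Not at hcon
    obtain ⟨f, hf, hadj⟩ := hN0 n hn0 Gᶜ hcon
    have hcard : (univ.image f).card = 2 * (s + 1) := by
      rw [card_image_of_injective _ hf, card_univ, Fintype.card_prod, Fintype.card_fin,
        Fintype.card_fin]
      ring
    obtain ⟨S, hS, hSm⟩ := exists_subset_card_eq (show m ≤ (univ.image f).card by omega)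
    obtain ⟨T, hT, hT3, hTH⟩ := hK S hSm
    apply hTH
    obtain ⟨a, b, c, hab, hac, hbc, rfl⟩ := Finset.card_eq_three.mp hT3
    rw [hH a b c hab hac hbc]
    obtain ⟨p, -, rfl⟩ := mem_image.1 (hS (hT (show a ∈ ({a, b, c} : Finset (Fin n)) by simp)))
    obtain ⟨q, -, rfl⟩ := mem_image.1 (hS (hT (show b ∈ ({f p, b, c} : Finset (Fin n)) by simp)))
    obtain ⟨r, -, rfl⟩ := mem_image.1 (hS (hT (show c ∈ ({f p, f q, c} : Finset (Fin n)) by simp)))
    have hpq : p ≠ q := fun h => hab (by rw [h])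
    have hpr : p ≠ r := fun h => hac (by rw [h])
    have hqr : q ≠ r := fun h => hbc (by rw [h])
    have h1 : G.Adj (f p) (f q) → p.1 = q.1 := by
      intro h
      by_contra hne
      exact ((compl_adj G _ _).1 (hadj p q hne)).2 h
    have h2 : G.Adj (f p) (f r) → p.1 = r.1 := by
      intro h
      by_contra hne
      exact ((compl_adj G _ _).1 (hadj p r hne)).2 h
    have h4 : G.Adj (f q) (f r) → q.1 = r.1 := by
      intro h
      by_contra hne
      exact ((compl_adj G _ _).1 (hadj q r hne)).2 h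
    have h5 : ¬ (p.1 = q.1 ∧ p.1 = r.1) := by
      rintro ⟨e1, e2⟩
      have g1 : p.2 ≠ q.2 := fun h => hpq (Prod.ext e1 h)
      have g2 : p.2 ≠ r.2 := fun h => hpr (Prod.ext e2 h)
      have g3 : q.2 ≠ r.2 := fun h => hqr (Prod.ext (e1.symm.trans e2) h)
      have := p.2.isLt
      have := q.2.isLt
      have := r.2.isLt
      rw [Ne, Fin.ext_iff] at g1 g2 g3
      omega
    refine ⟨?_, ?_, ?_⟩
    · rintro ⟨e1, e2⟩
      exact h5 ⟨h1 e1, h2 e2⟩
    · rintro ⟨e1, e2⟩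
      exact h5 ⟨h1 e1, (h1 e1).trans (h4 e2)⟩
    · rintro ⟨e1, e2⟩
      exact h5 ⟨(h2 e1).trans (h4 e2).symm, h2 e1⟩
  -- degrees
  set d : Fin n → ℝ := fun x => ∑ y, ind (G.Adj x y) with hd
  set D : ℝ := ∑ x, d x with hD
  have hsum : D + ∑ x, ∑ y, ind (Gᶜ.Adj x y) = (n : ℝ) ^ 2 - n := by
    have e1 : ∀ x y : Fin n, ind (G.Adj x y) + ind (Gᶜ.Adj x y) = 1 - ind (x = y) := by
      intro x y
      by_cases h : x = y
      · subst h
        rw [ind_true rfl, ind_false (G.loopless.irrefl x), ind_false (Gᶜ.loopless.irrefl x)]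
        ring
      · by_cases h' : G.Adj x y
        · rw [ind_true h', ind_false h, ind_false (fun g => ((compl_adj G _ _).1 g).2 h')]
          ring
        · rw [ind_false h', ind_false h, ind_true ((compl_adj G _ _).2 ⟨h, h'⟩)]
          ring
    have e2 : ∀ x : Fin n, ∑ y, ind (x = y) = 1 := fun x => by
      rw [sum_eq_single x (fun y _ h => ind_false (Ne.symm h)) (fun h => absurd (mem_univ x) h),
        ind_true rfl]
    rw [hD, hd, ← sum_add_distrib]
    simp only [← sum_add_distrib, e1, sum_sub_distrib, sum_const, card_univ, Fintype.card_fin, e2,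
      nsmul_eq_mul]
    ring
  have hD1 : (1 / (s : ℝ) - 2 * δ) * (n : ℝ) ^ 2 ≤ D := by
    have e : (n : ℝ) ≤ δ * (n : ℝ) ^ 2 := by nlinarith
    nlinarith
  have hCS : D ^ 2 ≤ n * ∑ x, d x ^ 2 := by
    have := sq_sum_le_card_mul_sum_sq (s := (univ : Finset (Fin n))) (f := d)
    rw [card_univ, Fintype.card_fin] at this
    exact this
  -- the cherries
  set c : Fin n → Fin n → Fin n → ℝ :=
    fun x y z => ind (G.Adj x y) * ind (G.Adj x z) - ind (y = z) with hcdef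
  have hcs : ∑ x, ∑ y, ∑ z, c x y z = ∑ x, d x ^ 2 - (n : ℝ) ^ 2 := by
    have e2 : ∀ y : Fin n, ∑ z, ind (y = z) = 1 := fun x => by
      rw [sum_eq_single x (fun y _ h => ind_false (Ne.symm h)) (fun h => absurd (mem_univ x) h),
        ind_true rfl]
    have e3 : ∀ x, ∑ y, ∑ z, c x y z = d x ^ 2 - n := by
      intro x
      rw [hcdef]
      simp only [sum_sub_distrib, e2, sum_const, card_univ, Fintype.card_fin, nsmul_eq_mul]
      rw [← sum_mul_sum, sq]
      ring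
    rw [sum_congr rfl fun x _ => e3 x, sum_sub_distrib, sum_const, card_univ, Fintype.card_fin,
      nsmul_eq_mul, sq (n : ℝ)]
  have hcle : ∀ x y z, c x y z ≤ 1 := by
    intro x y z
    have h1 := mul_le_mul (ind_le_one (G.Adj x y)) (ind_le_one (G.Adj x z)) (ind_nonneg _)
      zero_le_one
    have h2 := ind_nonneg (y = z)
    rw [hcdef]
    linarith
  have hc0 : ∀ x y z, ¬ (G.Adj x y ∧ G.Adj x z ∧ y ≠ z) → c x y z ≤ 0 := by
    intro x y z h
    rw [hcdef]
    by_cases h1 : G.Adj x y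
    · by_cases h2 : G.Adj x z
      · have h4 : y = z := by
          by_contra h5
          exact h ⟨h1, h2, h5⟩
        show ind (G.Adj x y) * ind (G.Adj x z) - ind (y = z) ≤ 0
        rw [ind_true h1, ind_true h2, ind_true h4]
        norm_num
      · show ind (G.Adj x y) * ind (G.Adj x z) - ind (y = z) ≤ 0
        rw [ind_false h2]
        have := ind_nonneg (y = z)
        linarith
    · show ind (G.Adj x y) * ind (G.Adj x z) - ind (y = z) ≤ 0
      rw [ind_false h1]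
      have := ind_nonneg (y = z)
      linarith
  have htr : ∀ x y z, tr H x y z ≤ 1 - (c x y z + c y x z + c z x y) / 3 := by
    intro x y z
    by_cases h : ({x, y, z} : Finset (Fin n)) ∈ H
    · obtain ⟨a, b, c'⟩ := ne_of_mem h3 h
      obtain ⟨g1, g2, g3⟩ := (hH x y z a b c').1 h
      have := hc0 x y z (fun g => g1 ⟨g.1, g.2.1⟩)
      have := hc0 y x z (fun g => g2 ⟨g.1.symm, g.2.1⟩)
      have := hc0 z x y (fun g => g3 ⟨g.1.symm, g.2.1.symm⟩)
      rw [tr, ind_true h]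
      linarith
    · rw [tr, ind_false h]
      have := hcle x y z
      have := hcle y x z
      have := hcle z x y
      linarith
  have h6 := six_card h3
  have hT : ∑ x, ∑ y, ∑ z, tr H x y z ≤ (n : ℝ) ^ 3 - ∑ x, ∑ y, ∑ z, c x y z := by
    have h7 : ∑ x, ∑ y, ∑ z, tr H x y z ≤
        ∑ x, ∑ y, ∑ z, (1 - (c x y z + c y x z + c z x y) / 3) :=
      sum_le_sum fun x _ => sum_le_sum fun y _ => sum_le_sum fun z _ => htr x y z
    have h8 : ∑ x : Fin n, ∑ y : Fin n, ∑ z : Fin n, (1 - (c x y z + c y x z + c z x y) / 3) =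
        (n : ℝ) ^ 3 - ∑ x, ∑ y, ∑ z, c x y z := by
      simp only [sum_sub_distrib, ← sum_div, sum_add_distrib]
      rw [perm2 c, perm4 c]
      simp only [sum_const, card_univ, Fintype.card_fin, nsmul_eq_mul]
      ring
    linarith
  rw [hcs] at hT
  have hs1 : (1 : ℝ) ≤ s := by exact_mod_cast hs
  have hn3 : (n : ℝ) ^ 2 ≤ δ * (n : ℝ) ^ 3 := by
    have : (n : ℝ) ^ 2 * 1 ≤ (n : ℝ) ^ 2 * (δ * n) :=
      mul_le_mul_of_nonneg_left hnd.le (by positivity)
    nlinarith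
  have hdd : (1 / (s : ℝ) ^ 2 - ε / 4) * (n : ℝ) ^ 3 ≤ ∑ x, d x ^ 2 := by
    have hq : (1 / (s : ℝ) ^ 2 - ε / 4) * (n : ℝ) ^ 4 ≤ D ^ 2 := by
      by_cases hp : 0 ≤ 1 / (s : ℝ) - 2 * δ
      · have h9 : ((1 / (s : ℝ) - 2 * δ) * (n : ℝ) ^ 2) ^ 2 ≤ D ^ 2 :=
          pow_le_pow_left₀ (by positivity) hD1 2
        have h10 : 1 / (s : ℝ) ^ 2 - ε / 4 ≤ (1 / (s : ℝ) - 2 * δ) ^ 2 := by
          have e1 : 1 / (s : ℝ) ^ 2 = (1 / (s : ℝ)) ^ 2 := by rw [one_div_pow]
          have e2 : 1 / (s : ℝ) ≤ 1 := by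
            rw [div_le_one (by linarith)]
            exact hs1
          have e3 : 0 ≤ 1 / (s : ℝ) := by positivity
          rw [e1, hδ]
          nlinarith
        calc (1 / (s : ℝ) ^ 2 - ε / 4) * (n : ℝ) ^ 4
            ≤ (1 / (s : ℝ) - 2 * δ) ^ 2 * (n : ℝ) ^ 4 :=
              mul_le_mul_of_nonneg_right h10 (by positivity)
          _ = ((1 / (s : ℝ) - 2 * δ) * (n : ℝ) ^ 2) ^ 2 := by ring
          _ ≤ D ^ 2 := h9
      · push Not at hp
        have e2 : 1 / (s : ℝ) ^ 2 ≤ 1 / (s : ℝ) := by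
          apply one_div_le_one_div_of_le (by linarith)
          nlinarith
        have h11 : 1 / (s : ℝ) ^ 2 - ε / 4 ≤ 0 := by
          rw [hδ] at hp
          linarith
        have h12 : (1 / (s : ℝ) ^ 2 - ε / 4) * (n : ℝ) ^ 4 ≤ 0 :=
          mul_nonpos_of_nonpos_of_nonneg h11 (by positivity)
        exact h12.trans (sq_nonneg _)
    have hn' : (0 : ℝ) < n := by linarith
    have h13 : (n : ℝ) * ((1 / (s : ℝ) ^ 2 - ε / 4) * (n : ℝ) ^ 3) ≤ n * ∑ x, d x ^ 2 := by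
      calc (n : ℝ) * ((1 / (s : ℝ) ^ 2 - ε / 4) * (n : ℝ) ^ 3)
          = (1 / (s : ℝ) ^ 2 - ε / 4) * (n : ℝ) ^ 4 := by ring
        _ ≤ D ^ 2 := hq
        _ ≤ _ := hCS
    exact le_of_mul_le_mul_left h13 hn'
  have hn3' : δ * (n : ℝ) ^ 3 = ε / 16 * (n : ℝ) ^ 3 := by rw [hδ]
  have hpos : 0 ≤ ε * (n : ℝ) ^ 3 := by positivity
  calc 6 * (H.card : ℝ) ≤ _ := h6
    _ ≤ _ := hT
    _ ≤ (1 - 1 / (s : ℝ) ^ 2 + ε) * (n : ℝ) ^ 3 := by
      rw [hn3'] at hn3
      nlinarith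

end Pool.Agent.Y578.GE
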