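import Pool.Agent.Y578.GE.Basic

/-!
# A dense 3-partite pattern contains `K_{2,2,2}`
-/

set_option autoImplicit false
open Finset
open scoped Classical

namespace Pool.Agent.Y578.GE

theorem cs_step {α β : Type} [Fintype α] [Fintype β] (f : α → β → ℝ) :
    (∑ b, ∑ a, f a b) ^ 2 ≤ (Fintype.card β : ℝ) * ∑ b, ∑ a, ∑ a', f a b * f a' b := by
  have h := sq_sum_le_card_mul_sum_sq (s := (univ : Finset β)) (f := fun b => ∑ a, f a b)
  rw [card_univ] at h
  refine h.trans (le_of_eq ?_)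
  congr 1
  refine sum_congr rfl fun b _ => ?_
  rw [sq, sum_mul_sum]

variable {n : ℕ}

theorem octa (t : Fin n → Fin n → Fin n → ℝ) (h0 : ∀ x y z, 0 ≤ t x y z) :
    (∑ x, ∑ y, ∑ z, t x y z) ^ 8 ≤ (n : ℝ) ^ 18 *
      ∑ x, ∑ x', ∑ y, ∑ y', ∑ z, ∑ z', ((t x y z * t x' y z) * (t x y' z * t x' y' z)) *
        ((t x y z' * t x' y z') * (t x y' z' * t x' y' z')) := by
  set N0 := ∑ x, ∑ y, ∑ z, t x y z with hN0
  set N1 := ∑ y, ∑ z, ∑ x, ∑ x', t x y z * t x' y z with hN1
  set N2 := ∑ x, ∑ x', ∑ z, ∑ y, ∑ y', (t x y z * t x' y z) * (t x y' z * t x' y' z) with hN2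
  set N3 := ∑ x, ∑ x', ∑ y, ∑ y', ∑ z, ∑ z', ((t x y z * t x' y z) * (t x y' z * t x' y' z)) *
        ((t x y z' * t x' y z') * (t x y' z' * t x' y' z')) with hN3
  have s1 : N0 ^ 2 ≤ (n : ℝ) ^ 2 * N1 := by
    have h := cs_step (α := Fin n) (β := Fin n × Fin n) (fun x p => t x p.1 p.2)
    rw [Fintype.card_prod, Fintype.card_fin] at h
    push_cast at h
    have e1 : ∑ b : Fin n × Fin n, ∑ a, t a b.1 b.2 = N0 := by
      rw [hN0, Fintype.sum_prod_type, sum_comm]
      rw [sum_congr rfl (fun z _ => sum_comm), sum_comm]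
      rw [sum_congr rfl (fun z _ => sum_comm)]
    have e2 : ∑ b : Fin n × Fin n, ∑ a, ∑ a', t a b.1 b.2 * t a' b.1 b.2 = N1 := by
      rw [hN1, Fintype.sum_prod_type]
    rw [e1, e2] at h
    linarith [sq (n : ℝ)]
  have s2 : N1 ^ 2 ≤ (n : ℝ) ^ 3 * N2 := by
    have h := cs_step (α := Fin n) (β := Fin n × Fin n × Fin n)
      (fun y p => t p.1 y p.2.2 * t p.2.1 y p.2.2)
    rw [Fintype.card_prod, Fintype.card_prod, Fintype.card_fin] at h
    push_cast at h
    have e1 : ∑ b : Fin n × Fin n × Fin n, ∑ a, t b.1 a b.2.2 * t b.2.1 a b.2.2 = N1 := by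
      rw [hN1, Fintype.sum_prod_type]
      simp only [Fintype.sum_prod_type]
      rw [sum_comm (s := univ) (t := univ) (f := fun y z => ∑ x, ∑ x', t x y z * t x' y z)]
      rw [sum_congr rfl (fun x _ => sum_congr rfl (fun x' _ => rfl))]
      calc ∑ x, ∑ x', ∑ z, ∑ y, t x y z * t x' y z
          = ∑ x, ∑ z, ∑ x', ∑ y, t x y z * t x' y z := sum_congr rfl fun x _ => sum_comm
        _ = ∑ z, ∑ x, ∑ x', ∑ y, t x y z * t x' y z := sum_comm
        _ = ∑ z, ∑ x, ∑ y, ∑ x', t x y z * t x' y z :=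
            sum_congr rfl fun z _ => sum_congr rfl fun x _ => sum_comm
        _ = ∑ z, ∑ y, ∑ x, ∑ x', t x y z * t x' y z := sum_congr rfl fun z _ => sum_comm
    have e2 : ∑ b : Fin n × Fin n × Fin n, ∑ a, ∑ a',
        t b.1 a b.2.2 * t b.2.1 a b.2.2 * (t b.1 a' b.2.2 * t b.2.1 a' b.2.2) = N2 := by
      rw [hN2, Fintype.sum_prod_type]
      simp only [Fintype.sum_prod_type]
    rw [e1, e2] at h
    have : (n : ℝ) ^ 3 = n * (n * n) := by ring
    rw [this]
    exact h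
  have s3 : N2 ^ 2 ≤ (n : ℝ) ^ 4 * N3 := by
    have h := cs_step (α := Fin n) (β := Fin n × Fin n × Fin n × Fin n)
      (fun z p => (t p.1 p.2.2.1 z * t p.2.1 p.2.2.1 z) * (t p.1 p.2.2.2 z * t p.2.1 p.2.2.2 z))
    rw [Fintype.card_prod, Fintype.card_prod, Fintype.card_prod, Fintype.card_fin] at h
    push_cast at h
    have e1 : ∑ b : Fin n × Fin n × Fin n × Fin n, ∑ a,
        (t b.1 b.2.2.1 a * t b.2.1 b.2.2.1 a) * (t b.1 b.2.2.2 a * t b.2.1 b.2.2.2 a) = N2 := by
      rw [hN2, Fintype.sum_prod_type]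
      simp only [Fintype.sum_prod_type]
      refine sum_congr rfl fun x _ => sum_congr rfl fun x' _ => ?_
      calc ∑ y, ∑ y', ∑ z, (t x y z * t x' y z) * (t x y' z * t x' y' z)
          = ∑ y, ∑ z, ∑ y', (t x y z * t x' y z) * (t x y' z * t x' y' z) :=
            sum_congr rfl fun y _ => sum_comm
        _ = ∑ z, ∑ y, ∑ y', (t x y z * t x' y z) * (t x y' z * t x' y' z) := sum_comm
    have e2 : ∑ b : Fin n × Fin n × Fin n × Fin n, ∑ a, ∑ a',
        (t b.1 b.2.2.1 a * t b.2.1 b.2.2.1 a) * (t b.1 b.2.2.2 a * t b.2.1 b.2.2.2 a) *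
        ((t b.1 b.2.2.1 a' * t b.2.1 b.2.2.1 a') * (t b.1 b.2.2.2 a' * t b.2.1 b.2.2.2 a'))
          = N3 := by
      rw [hN3, Fintype.sum_prod_type]
      simp only [Fintype.sum_prod_type]
    rw [e1, e2] at h
    have : (n : ℝ) ^ 4 = n * (n * (n * n)) := by ring
    rw [this]
    exact h
  have n0 : (0 : ℝ) ≤ n := Nat.cast_nonneg n
  have p1 : 0 ≤ N1 := by
    refine sum_nonneg fun y _ => sum_nonneg fun z _ => sum_nonneg fun x _ => sum_nonneg fun x' _ => ?_
    exact mul_nonneg (h0 _ _ _) (h0 _ _ _)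
  have p2 : 0 ≤ N2 := by
    refine sum_nonneg fun y _ => sum_nonneg fun z _ => sum_nonneg fun x _ => sum_nonneg fun x' _ =>
      sum_nonneg fun w _ => ?_
    exact mul_nonneg (mul_nonneg (h0 _ _ _) (h0 _ _ _)) (mul_nonneg (h0 _ _ _) (h0 _ _ _))
  have q1 : (N0 ^ 2) ^ 2 ≤ ((n : ℝ) ^ 2 * N1) ^ 2 :=
    pow_le_pow_left₀ (sq_nonneg _) s1 2
  have q2 : (N0 ^ 2) ^ 2 ≤ (n : ℝ) ^ 7 * N2 := by
    calc (N0 ^ 2) ^ 2 ≤ ((n : ℝ) ^ 2 * N1) ^ 2 := q1
      _ = (n : ℝ) ^ 4 * N1 ^ 2 := by ring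
      _ ≤ (n : ℝ) ^ 4 * ((n : ℝ) ^ 3 * N2) := mul_le_mul_of_nonneg_left s2 (by positivity)
      _ = (n : ℝ) ^ 7 * N2 := by ring
  have q3 : ((N0 ^ 2) ^ 2) ^ 2 ≤ ((n : ℝ) ^ 7 * N2) ^ 2 :=
    pow_le_pow_left₀ (by positivity) q2 2
  calc N0 ^ 8 = ((N0 ^ 2) ^ 2) ^ 2 := by ring
    _ ≤ ((n : ℝ) ^ 7 * N2) ^ 2 := q3
    _ = (n : ℝ) ^ 14 * N2 ^ 2 := by ring
    _ ≤ (n : ℝ) ^ 14 * ((n : ℝ) ^ 4 * N3) := mul_le_mul_of_nonneg_left s3 (by positivity)
    _ = (n : ℝ) ^ 18 * N3 := by ring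

/-- if a 0-1 pattern with at least `ε n³` triples has only degenerate octahedra, then `n` is small -/
theorem octa_bound {ε : ℝ} (hε : 0 < ε) (hn : 3 / ε ^ 8 < (n : ℝ)) (P : Fin n → Fin n → Fin n → Prop)
    (hP : ∀ x x' y y' z z', x ≠ x' → y ≠ y' → z ≠ z' →
      P x y z → P x' y z → P x y' z → P x' y' z → P x y z' → P x' y z' → P x y' z' →
      P x' y' z' → False) :
    ∑ x, ∑ y, ∑ z, ind (P x y z) ≤ ε * (n : ℝ) ^ 3 := by
  by_contra hc
  push Not at hc
  have h := octa (fun x y z => ind (P x y z)) (fun x y z => ind_nonneg _)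
  have hb : ∀ x x' y y' z z' : Fin n,
      ((ind (P x y z) * ind (P x' y z)) * (ind (P x y' z) * ind (P x' y' z))) *
        ((ind (P x y z') * ind (P x' y z')) * (ind (P x y' z') * ind (P x' y' z'))) ≤
      ind (x = x') + ind (y = y') + ind (z = z') := by
    intro x x' y y' z z'
    by_cases h1 : x = x'
    · rw [ind_true h1]
      have : ((ind (P x y z) * ind (P x' y z)) * (ind (P x y' z) * ind (P x' y' z))) *
        ((ind (P x y z') * ind (P x' y z')) * (ind (P x y' z') * ind (P x' y' z'))) ≤ 1 := by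
        unfold ind
        split_ifs <;> norm_num
      have := ind_nonneg (y = y')
      have := ind_nonneg (z = z')
      linarith
    by_cases h2 : y = y'
    · rw [ind_true h2]
      have : ((ind (P x y z) * ind (P x' y z)) * (ind (P x y' z) * ind (P x' y' z))) *
        ((ind (P x y z') * ind (P x' y z')) * (ind (P x y' z') * ind (P x' y' z'))) ≤ 1 := by
        unfold ind
        split_ifs <;> norm_num
      have := ind_nonneg (x = x')
      have := ind_nonneg (z = z')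
      linarith
    by_cases h3 : z = z'
    · rw [ind_true h3]
      have : ((ind (P x y z) * ind (P x' y z)) * (ind (P x y' z) * ind (P x' y' z))) *
        ((ind (P x y z') * ind (P x' y z')) * (ind (P x y' z') * ind (P x' y' z'))) ≤ 1 := by
        unfold ind
        split_ifs <;> norm_num
      have := ind_nonneg (x = x')
      have := ind_nonneg (y = y')
      linarith
    · rw [ind_false h1, ind_false h2, ind_false h3]
      have h4 := hP x x' y y' z z' h1 h2 h3
      by_cases g1 : P x y z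
      · by_cases g2 : P x' y z
        · by_cases g3 : P x y' z
          · by_cases g4 : P x' y' z
            · by_cases g5 : P x y z'
              · by_cases g6 : P x' y z'
                · by_cases g7 : P x y' z'
                  · by_cases g8 : P x' y' z'
                    · exact absurd (h4 g1 g2 g3 g4 g5 g6 g7 g8) id
                    · rw [ind_false g8]; simp
                  · rw [ind_false g7]; simp
                · rw [ind_false g6]; simp
              · rw [ind_false g5]; simp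
            · rw [ind_false g4]; simp
          · rw [ind_false g3]; simp
        · rw [ind_false g2]; simp
      · rw [ind_false g1]; simp
  have hsum := sum_le_sum (s := (univ : Finset (Fin n))) fun x _ =>
    sum_le_sum (s := (univ : Finset (Fin n))) fun x' _ =>
    sum_le_sum (s := (univ : Finset (Fin n))) fun y _ =>
    sum_le_sum (s := (univ : Finset (Fin n))) fun y' _ =>
    sum_le_sum (s := (univ : Finset (Fin n))) fun z _ =>
    sum_le_sum (s := (univ : Finset (Fin n))) fun z' _ => hb x x' y y' z z'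
  have hdiag : ∀ x : Fin n, ∑ x', ind (x = x') = 1 := by
    intro x
    rw [sum_eq_single x (fun y _ h => ind_false (Ne.symm h)) (fun h => absurd (mem_univ x) h),
      ind_true rfl]
  have hR : ∑ x : Fin n, ∑ x' : Fin n, ∑ y : Fin n, ∑ y' : Fin n, ∑ z : Fin n, ∑ z' : Fin n,
      (ind (x = x') + ind (y = y') + ind (z = z')) = 3 * (n : ℝ) ^ 5 := by
    simp only [sum_add_distrib, sum_const, card_univ, Fintype.card_fin, nsmul_eq_mul, hdiag,
      ← mul_sum]
    ring
  rw [hR] at hsum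
  have n0 : (0 : ℝ) < n := lt_trans (by positivity) hn
  have h1 : (ε * (n : ℝ) ^ 3) ^ 8 < (∑ x, ∑ y, ∑ z, ind (P x y z)) ^ 8 :=
    pow_lt_pow_left₀ hc (by positivity) (by norm_num)
  have h2 : (ε * (n : ℝ) ^ 3) ^ 8 < (n : ℝ) ^ 18 * (3 * (n : ℝ) ^ 5) :=
    lt_of_lt_of_le h1 (h.trans (mul_le_mul_of_nonneg_left hsum (by positivity)))
  have h3 : (n : ℝ) ^ 23 * (ε ^ 8 * n) < (n : ℝ) ^ 23 * 3 := by
    calc (n : ℝ) ^ 23 * (ε ^ 8 * n) = (ε * (n : ℝ) ^ 3) ^ 8 := by ring
      _ < (n : ℝ) ^ 18 * (3 * (n : ℝ) ^ 5) := h2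
      _ = (n : ℝ) ^ 23 * 3 := by ring
  have h4 : ε ^ 8 * n < 3 := lt_of_mul_lt_mul_left h3 (by positivity)
  rw [div_lt_iff₀ (by positivity)] at hn
  linarith

end Pool.Agent.Y578.GE
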